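import Mathlib
import Pool.Agent.Q43.RP.Bd
import Pool.Agent.Q43.RP.Wal
import Pool.Agent.Q43.HL.CmAv
import Pool.Agent.Q43.HL.Str8
import Pool.Agent.TH170.TT.Small

/-!
# Hodge classes on abelian varieties with a specialization of CM type

Let `X` be ANY complex abelian variety (`AV`: rational homology `H`, tangent space `T`, the inclusion
`per : H → T`, a polarization). Let `E i` be finitely many CM fields of degrees at least `2 g` and of
total degree `2 N` (no condition on the Galois groups; they may be isomorphic), `Φ i` CM types and `A`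
the product of the abelian varieties of CM type `(E i, Φ i)`. `X` *specializes* to `A`
(`SpecializesTo X Φ`) if `H_1(X, ℚ)` can be identified with `H_1(A, ℚ) = ∏ E i` such that all Hodge
classes in the tensor powers of `H^1(X, ℚ)` are Hodge classes for `A`, that is, the Mumford-Tate group
of `X` contains the one of `A`. This holds if `X` is a Hodge generic member of a family of abelian
varieties (or of a Shimura variety of Hodge type) which has the member `A`; every abelian variety has
many such specializations, and `A` is one of itself. The defect of `A` is `N + 1 - mtDim Φ`, where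
`mtDim Φ` is the dimension of the Mumford-Tate group of `A`.

`NoExoticIn X m` says that on all powers of `X` the Hodge classes of degree `2 m` are linear
combinations of products of Hodge classes of degree two, that is (Lefschetz) of divisor classes; the
Hodge conjecture follows for them. `LargeMultiplicities X r` says that the eigenvalues which are not
real of the central endomorphisms of `X` have multiplicities greater than `r`; this is no condition if
`X` has no simple factor of type IV in the classification of Albert, and in general it says that the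
relative dimension `2 dim B / [F : ℚ]` is greater than `r` for all isotypical factors `B` of type IV
(`F` the centre of `End B`).

1. If `A` has defect at most `D` and `X` specializes to `A`, then `NoExoticIn X m` holds for all `m`
   with `2 m D < g`; if `4 D < g`, it holds for all `m` such that `LargeMultiplicities X (2 m)`. So for
   `4 D < g` and `X` without factors of type IV the Hodge conjecture holds for all powers of `X`. (Weil
   classes of codimension `r / 2` show that the condition `2 m < r` cannot be weakened.)
2. **Structure.** Let `A` have defect at most `D` with `4 D < g`, and let `X` specialize to `A`. There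
   is a subalgebra `F` of `∏ E i` (a field if there is only one `E`), acting on `X` by endomorphisms,
   with the following properties. Let `K` be the field generated by all conjugates of the components of
   `F`. The Galois group of `K` embeds into `GL_n(ℚ)`, `n ≤ D`, and complex conjugation is mapped to
   `-1`: `K` is `ℚ` or a CM field, its degree is bounded in terms of `D` alone, and for `D = 1` it is
   `ℚ` or imaginary quadratic. If `n = 0`, the Hodge conjecture holds for all powers of `X`. In
   general ALL Hodge classes on all powers of `X` are generated by divisor classes and by Weil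
   classes of `F`: every Hodge class in
   `H^1(X, ℚ)^{⊗ 2 m}`, for all `m`, is a linear combination of products of Hodge classes of degree two
   and of one Weil tensor `w (P_1 v_1, …, P_{2 m'} v_{2 m'})`, `P_k` endomorphisms of `X`. A Weil tensor
   (`IsWeilTensor`) is a Hodge class in `H^1(X, ℚ)^{⊗ 2 m'}` invariant under the commutators of the
   `F`-linear automorphisms of `H_1(X, ℚ)`. If `F` is a field, they generate `SL_F(H_1(X, ℚ))`, and
   its invariants are the products of the elements of `W_F = ⋀_F^d H^1(X, ℚ)`, `d = dim_F H_1(X, ℚ)`: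
   these are the classes considered by Weil. So the Hodge conjecture for all powers of `X` is reduced
   to the Weil classes of `F`.
3. **Almost all types.** There are `2 ^ N` families of CM types of the `E i`. For all but
   `2 ^ N |ι| (2 N + 1) ^ 3 7 ^ (- g / 8)` of them and EVERY `X` which specializes to `A`, the property
   `NoExoticIn X m` holds for all `m` with `LargeMultiplicities X (2 m)` (so the Hodge conjecture holds
   for all powers of `X` if `X` has no factors of type IV). If `10 ^ 13 k (log (6 N)) ^ 4 ≤ g`, then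
   for all but `2 ^ N exp (- g / (10 ^ 13 k log (6 N)))` of them and every `X` which specializes to
   `A`, it holds for all `m ≤ k / 2`; so for large `g`, every CM field `E` of degree `2 g` and all but
   `2 ^ g exp (- (log g) ^ 3)` of its `2 ^ g` CM types it holds for all `m ≤ g / (2 (log g) ^ 5)`.

The condition `4 D < g` in parts 1 and 2 cannot be replaced by `4 D ≤ g`: the abelian fourfolds of
Mumford have `End X = ℤ`, a specialization of defect one to a field of degree `8`, and an exotic Hodge
class on `X ^ 2`.

The proof of part 1: the relations between the embeddings form a space `K` of functions on the set of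
the `2 N` embeddings, of dimension `D` and invariant under the Galois group, so the value of a function
in `K` at a point is at most `D / (2 g)` times its norm of order one (an uncertainty principle), and
the values of an integral relation are integers: there are only trivial relations of length at most
`2 m` if `2 m D < g`. The group of all linear maps of `H_1(X, ℂ)` which multiply the Hodge tensors by
powers of one factor has the same tensor invariants (descent for the rational Hodge tensors and the
conjugates of the Hodge cocharacter), every invariant subspace has an invariant complement, its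
bilinear invariants pair conjugate eigenvectors, and it contains an element with eigenvalues the
products of different primes attached to the conjugates of `Φ`; the absence of trivial relations of
length four then determines all invariants up to determinants. In part 2 the relations which occur in
the Hodge classes of `X` define a partition of the embeddings, invariant under the Galois group, and
so the algebra `F`; the invariants are computed with determinants (a first fundamental theorem for
products of special linear and symplectic groups), and descend to the rational numbers. In part 3 the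
union bound cannot pass `k ^ 2 = g`; it is replaced by a restricted isometry property for the half
systems of the pairs of letters (suprema of chaos processes, decoupling and chaining with the Khinchin
inequality for operators).
-/

set_option autoImplicit false

namespace Pool.Agent.Q43.Cand.ExoticThreshold

open NumberField Module Pool.Agent.H204R3.CM Pool.Agent.H204R3.GP Pool.Agent.W546.GHC
  Pool.Agent.TH170.LV Pool.Agent.H194R3.CM Pool.Agent.Q60.D3 Pool.Agent.Q43.HL

section

variable {ι : Type} {E : ι → Type} [∀ i, Field (E i)] [∀ i, NumberField (E i)]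

/-- The isomorphism `u` of the rational homology groups of `X` and of the product of the abelian
varieties of CM type `(E i, Φ i)` maps all Hodge classes in the tensor powers of the first cohomology
group of `X` to Hodge classes. -/
def IsSpecialization (X : AV) (Φ : ∀ i, Set (E i →+* ℂ)) (u : X.H ≃ₗ[ℚ] (∀ i, E i)) : Prop :=
  ∀ (m : ℕ) (ψ : MultilinearMap ℚ (fun _ : Fin m × Fin 2 => X.H) ℚ), IsHodgeTensor X.per ψ →
    IsHodgeTensor ((per Φ (fun i : ι => i)).comp u.toLinearMap.toAddMonoidHom) ψ

/-- The abelian variety `X` specializes to the product of the abelian varieties of CM type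
`(E i, Φ i)`. -/
def SpecializesTo (X : AV) (Φ : ∀ i, Set (E i →+* ℂ)) : Prop :=
  ∃ u : X.H ≃ₗ[ℚ] (∀ i, E i), IsSpecialization X Φ u

/-- The action of `z` on the rational homology of `X`. -/
def act {X : AV} (u : X.H ≃ₗ[ℚ] (∀ i, E i)) (z : ∀ i, E i) : X.H →ₗ[ℚ] X.H :=
  u.symm.toLinearMap ∘ₗ LinearMap.mulLeft ℚ z ∘ₗ u.toLinearMap

/-- Weil tensors: Hodge classes in a tensor power of the first cohomology group of `X` which are
invariant under the commutators of the `F`-linear automorphisms of the rational homology. -/
def IsWeilTensor {X : AV} (u : X.H ≃ₗ[ℚ] (∀ i, E i)) (F : Subalgebra ℚ (∀ i, E i)) {m : ℕ}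
    (w : MultilinearMap ℚ (fun _ : Fin m × Fin 2 => X.H) ℚ) : Prop :=
  IsHodgeTensor X.per w ∧ ∀ g h : X.H ≃ₗ[ℚ] X.H,
    (∀ z ∈ F, ∀ v, g (act u z v) = act u z (g v)) → (∀ z ∈ F, ∀ v, h (act u z v) = act u z (h v)) →
    ∀ v, w (fun k => g (h (g.symm (h.symm (v k))))) = w v

/-- The products of Hodge classes of degree two and of one Weil tensor, all composed with
endomorphisms of `X`, in `2 m` variables. -/
def divisorWeilProducts {X : AV} (u : X.H ≃ₗ[ℚ] (∀ i, E i)) (F : Subalgebra ℚ (∀ i, E i)) (m : ℕ) :
    Set (MultilinearMap ℚ (fun _ : Fin m × Fin 2 => X.H) ℚ) :=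
  {ψ | ∃ (s m' : ℕ) (e : (Fin s × Fin 2) ⊕ (Fin m' × Fin 2) ≃ Fin m × Fin 2)
    (β : Fin s → (X.H →ₗ[ℚ] X.H →ₗ[ℚ] ℚ))
    (w : MultilinearMap ℚ (fun _ : Fin m' × Fin 2 => X.H) ℚ)
    (P : Fin m' × Fin 2 → (X.H →ₗ[ℚ] X.H)),
    (∀ j, IsHodgeBilinear X.per (β j)) ∧ (∀ k, IsHom X X (P k)) ∧ IsWeilTensor u F w ∧
    ∀ v, ψ v = (∏ j, β j (v (e (Sum.inl (j, 0)))) (v (e (Sum.inl (j, 1))))) *
      w (fun k => P k (v (e (Sum.inr k))))}

end

/-- All Hodge classes of degree `2 m` on all powers of `X` are linear combinations of products of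
Hodge classes of degree two. -/
def NoExoticIn (X : AV) (m : ℕ) : Prop :=
  ∀ (n : ℕ) (f : (Fin n → X.H) [⋀^Fin m × Fin 2]→ₗ[ℚ] ℚ), IsHodge (perPow X.per n) f →
    f ∈ divisorial (perPow X.per n) m

/-- The eigenvalues which are not real of the central endomorphisms of `X` have multiplicities
greater than `r`. -/
def LargeMultiplicities (X : AV) (r : ℕ) : Prop :=
  ∀ P : X.H →ₗ[ℚ] X.H, IsHom X X P → (∀ Q : X.H →ₗ[ℚ] X.H, IsHom X X Q → P ∘ₗ Q = Q ∘ₗ P) →
    ∀ z : ℂ, (P.charpoly.map (algebraMap ℚ ℂ)).IsRoot z → z.im ≠ 0 →
      r < (P.charpoly.map (algebraMap ℚ ℂ)).rootMultiplicity z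

open Classical in
/-- The dimension of the Mumford-Tate group of the product of the abelian varieties of CM type
`(E i, Φ i)`: the dimension of the rational span of the conjugates of the type, as functions on the set
of the complex embeddings of the fields. -/
noncomputable def mtDim {ι : Type} {E : ι → Type} [∀ i, Field (E i)] (Φ : ∀ i, Set (E i →+* ℂ)) :
    ℕ :=
  finrank ℚ (Submodule.span ℚ (Set.range (fun (σ : ℂ ≃+* ℂ) (y : Σ i, (E i →+* ℂ)) =>
    if (σ : ℂ →+* ℂ).comp y.2 ∈ Φ y.1 then (1 : ℚ) else 0)))

/-- For every abelian variety `X` which specializes to the family `Φ` there are no exotic Hodge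
classes in codimensions at most `k / 2` on the powers of `X`. -/
def GoodUpTo {ι : Type} {E : ι → Type} [∀ i, Field (E i)] [∀ i, NumberField (E i)]
    (Φ : ∀ i, Set (E i →+* ℂ)) (k : ℕ) : Prop :=
  ∀ X : AV, SpecializesTo X Φ → ∀ m, 2 * m ≤ k → NoExoticIn X m

/-- For every abelian variety `X` which specializes to the family `Φ` there are no exotic Hodge
classes on the powers of `X` in codimensions `m` such that the multiplicities of `X` are greater than
`2 m` (all codimensions if there are no factors of type IV). -/
def Good {ι : Type} {E : ι → Type} [∀ i, Field (E i)] [∀ i, NumberField (E i)]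
    (Φ : ∀ i, Set (E i →+* ℂ)) : Prop :=
  ∀ X : AV, SpecializesTo X Φ → ∀ m, LargeMultiplicities X (2 * m) → NoExoticIn X m

/-- **Hodge classes on abelian varieties with a specialization of CM type.** -/
theorem result :
    (∀ {ι : Type} [Fintype ι] (E : ι → Type) [∀ i, Field (E i)]
      [∀ i, NumberField (E i)] [∀ i, IsCMField (E i)] (Φ : ∀ i, Set (E i →+* ℂ)),
      (∀ i, IsCMType (Φ i)) → ∀ g N D : ℕ, (∀ i, 2 * g ≤ finrank ℚ (E i)) →
      ∑ i, finrank ℚ (E i) = 2 * N → N + 1 ≤ mtDim Φ + D →
      ∀ X : AV, SpecializesTo X Φ → ∀ m : ℕ,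
        2 * m * D < g ∨ (4 * D < g ∧ LargeMultiplicities X (2 * m)) → NoExoticIn X m) ∧
    (∀ {ι : Type} [Fintype ι] (E : ι → Type) [∀ i, Field (E i)]
      [∀ i, NumberField (E i)] [∀ i, IsCMField (E i)] (Φ : ∀ i, Set (E i →+* ℂ)),
      (∀ i, IsCMType (Φ i)) → ∀ g N D : ℕ, (∀ i, 2 * g ≤ finrank ℚ (E i)) →
      ∑ i, finrank ℚ (E i) = 2 * N → N + 1 ≤ mtDim Φ + D → 4 * D < g →
      ∀ (X : AV) (u : X.H ≃ₗ[ℚ] (∀ i, E i)), IsSpecialization X Φ u →
      ∃ F : Subalgebra ℚ (∀ i, E i),
        (∃ (n : ℕ) (r : (ℂ ≃+* ℂ) →* (Matrix (Fin n) (Fin n) ℚ)ˣ), n ≤ D ∧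
          ((r starRingAut : (Matrix (Fin n) (Fin n) ℚ)ˣ) : Matrix (Fin n) (Fin n) ℚ) = -1 ∧
          (∀ σ, r σ = 1 ↔ ∀ z ∈ F, ∀ (i : ι) (x : E i →+* ℂ), σ (x (z i)) = x (z i)) ∧
          (n = 0 → ∀ m, NoExoticIn X m)) ∧
        (∀ z ∈ F, IsHom X X (act u z)) ∧
        ∀ (m : ℕ) (ψ : MultilinearMap ℚ (fun _ : Fin m × Fin 2 => X.H) ℚ),
          IsHodgeTensor X.per ψ → ψ ∈ Submodule.span ℚ (divisorWeilProducts u F m)) ∧
    ∀ {ι : Type} [Fintype ι] [Nonempty ι] (E : ι → Type) [∀ i, Field (E i)]
      [∀ i, NumberField (E i)] [∀ i, IsCMField (E i)] (g N : ℕ), (∀ i, 2 * g ≤ finrank ℚ (E i)) →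
      ∑ i, finrank ℚ (E i) = 2 * N →
      {Φ : ∀ i, Set (E i →+* ℂ) | ∀ i, IsCMType (Φ i)}.ncard = 2 ^ N ∧
      ({Φ : ∀ i, Set (E i →+* ℂ) | (∀ i, IsCMType (Φ i)) ∧ ¬ Good Φ}.ncard : ℝ) ≤
        2 ^ N * (Fintype.card ι * (2 * N + 1) ^ 3 * 7 ^ (-(g / 8 : ℝ))) ∧
      ∀ k : ℕ, 0 < k → 10 ^ 13 * (k * Real.log (6 * N) ^ 4) ≤ g →
        ({Φ : ∀ i, Set (E i →+* ℂ) | (∀ i, IsCMType (Φ i)) ∧ ¬ GoodUpTo Φ k}.ncard : ℝ) ≤
          2 ^ N * Real.exp (-(g / (10 ^ 13 * (k * Real.log (6 * N))))) := by
  have h := Pool.Agent.Q43.RP.ncard_near (fun Φ k => GoodUpTo Φ k)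
    (fun _ _ hΦ h _ hX _ hm => av_low hΦ h hX hm)
  have h4 := Pool.Agent.TH170.TT.ncard_small (fun Φ k => k = 4 → Good Φ)
    (fun _ _ hΦ h hk _ hX _ hm => av_mult hΦ hk.ge h hX hm)
  refine ⟨?_, ?_, ?_⟩
  · intro ι _ E _ _ _ Φ hΦ g N D hg hN hD X hX m hm
    rcases hm with hm | ⟨hk, hm⟩
    · exact av_low hΦ (Pool.Agent.Q43.RP.levelFree_of_mtDim Φ hΦ hg hN hD hm) hX le_rfl
    · exact av_mult hΦ le_rfl (Pool.Agent.Q43.RP.levelFree_of_mtDim Φ hΦ hg hN hD hk) hX hm
  · intro ι _ E _ _ _ Φ hΦ g N D hg hN hD h4 X u hu
    obtain ⟨n, b, b', hb⟩ := av_bases X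
    obtain ⟨ω₀, hR⟩ := av_riemann X
    obtain ⟨F, ⟨M, r, hM, hr1, hr2, hr3⟩, h2, h3⟩ :=
      strD X.per b b' hb hR u Φ hΦ hu hg hN hD h4
    refine ⟨F, ⟨M, r, hM, hr1, hr2, fun h0 m n' f hf => alt_pow X.per
      (fun ψ hψ => hr3 h0 m ψ hψ) f hf⟩, h2, fun m ψ hψ => Submodule.span_mono ?_ (h3 m ψ hψ)⟩
    rintro _ ⟨s, m', e, β, w, P, hβ, hP, hw, hw', rfl⟩
    exact ⟨s, m', e, β, w, P, hβ, hP, ⟨hw, fun g h hg hh v => hw' _ ⟨g, h, hg, hh, rfl⟩ v⟩,
      fun v => prodT_apply e β w P v⟩
  · intro ι _ _ E _ _ _ g N hg hN
    refine ⟨(h.1 E g N hg hN).1, ?_, (h.1 E g N hg hN).2⟩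
    have h5 := (h4.1 E g N 4 hg hN (by norm_num)).2
    have h6 : {Φ : ∀ i, Set (E i →+* ℂ) | (∀ i, IsCMType (Φ i)) ∧ ¬ Good Φ} =
        {Φ : ∀ i, Set (E i →+* ℂ) | (∀ i, IsCMType (Φ i)) ∧ ¬ (4 = 4 → Good Φ)} := by
      ext Φ
      simp
    rw [h6]
    refine h5.trans (le_of_eq ?_)
    norm_num

end Pool.Agent.Q43.Cand.ExoticThreshold
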